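import Mathlib
import Pool.Agent.helper76.FF2.Spec

/-! COR: the comparison of the two Berlekamp sums. -/

set_option autoImplicit false

namespace Pool.Agent.FF2

open Polynomial

theorem COR_deriv (K : Type*) [Field K] [CharP K 2] (w : K[X]) : derivative (w ^ 4) = 0 := by
  have h2 : ((4 : ℕ) : K) = 0 := by
    rw [CharP.cast_eq_zero_iff K 2]
    norm_num
  rw [derivative_pow, h2]
  simp

theorem COR_hasse (K : Type*) [Field K] [CharP K 2] (w : K[X]) : hasseDeriv 2 (w ^ 4) = 0 := by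
  have h2 : (2 : K[X]) = 0 := CharTwo.two_eq_zero
  have hd : derivative (w ^ 2) = 0 := by
    have h : ((2 : ℕ) : K) = 0 := by exact_mod_cast CharP.cast_eq_zero K 2
    rw [derivative_pow, h]
    simp
  have h4 : w ^ 4 = w ^ 2 * w ^ 2 := by ring
  have ha : Finset.HasAntidiagonal.antidiagonal 2 = {((0 : ℕ), (2 : ℕ)), (1, 1), (2, 0)} := by decide
  rw [h4, hasseDeriv_mul, ha]
  rw [Finset.sum_insert (by decide), Finset.sum_insert (by decide), Finset.sum_singleton]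
  simp only [hasseDeriv_one, hd, hasseDeriv_zero, LinearMap.id_apply]
  linear_combination (w ^ 2 * hasseDeriv 2 (w ^ 2)) * h2

theorem COR_eval_ne (K : Type*) [Field K] (B : Finset K) (x : K) (hx : x ∉ B) :
    (pol B).eval x ≠ 0 := by
  unfold pol
  rw [eval_prod, Finset.prod_ne_zero_iff]
  intro c hc
  rw [eval_sub, eval_X, eval_C, sub_ne_zero]
  rintro rfl
  exact hx hc

theorem COR_coprime (K : Type*) [Field K] (B : Finset K) (E : K[X])
    (h : ∀ b ∈ B, E.eval b ≠ 0) : IsCoprime (pol B) E := by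
  unfold pol
  refine IsCoprime.prod_left fun b hb => ?_
  rw [(irreducible_X_sub_C b).coprime_iff_not_dvd, dvd_iff_isRoot]
  exact h b hb

theorem COR_zr (K : Type*) [Field K] [CharP K 2] (h3 : ZRT_stmt K) (A E s w : K[X])
    (B R : Finset K) (hA : derivative A = (pol B * E) ^ 2) (heq : A + w ^ 4 = s * pol R)
    (hR : ∀ x ∈ R, x ∉ B ∧ E.eval x ≠ 0 ∧ s.eval x ≠ 0) (δ : K) (N₁ N₂ : K[X])
    (hN : X * (hasseDeriv 2 A * s + derivative s * derivative A) =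
        C δ * (derivative A * s) + N₁ * (E ^ 2 * s) + N₂ * pol B ^ 2) :
    ∀ x ∈ R, zr R x = δ + N₁.eval x / (pol B).eval x ^ 2 + N₂.eval x / (E ^ 2 * s).eval x := by
  intro x hx
  obtain ⟨hxB, hE, hs⟩ := hR x hx
  obtain ⟨_, _, hz⟩ := h3 A (w ^ 4) s R heq (COR_deriv K w) (COR_hasse K w) x hx hs
  have hP : (pol B).eval x ≠ 0 := COR_eval_ne K B x hxB
  have h1 := congrArg (eval x) hN
  rw [hz]
  simp only [eval_mul, eval_add, eval_X, eval_C, eval_pow, hA] at h1 ⊢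
  field_simp
  linear_combination h1

theorem COR (K : Type*) [Field K] [CharP K 2] (h1 : E2A_stmt K) (h2 : ROT_stmt K)
    (h3 : ZRT_stmt K) (h4 : DEC_stmt K) (h5 : LOC_stmt K) (h6 : NUM_stmt K) : COR_stmt K := by
  intro A E s w₁ w₂ B R₁ R₂ h
  have two : (2 : K) = 0 := CharTwo.two_eq_zero
  have hPm : (pol B).Monic := by
    unfold pol
    exact monic_prod_of_monic _ _ fun x _ => monic_X_sub_C x
  obtain ⟨N₁, N₂, hN1, hN2, hN⟩ := h4 A (pol B) E s hPm h.hE h.hs h.hA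
    (COR_coprime K B E h.hBE) (COR_coprime K B s h.hBs) h.hdeg
  have hz1 := COR_zr K h3 A E s w₁ B R₁ h.hA h.h1 h.hR1 _ N₁ N₂ hN
  have hz2 := COR_zr K h3 A E s w₂ B R₂ h.hA h.h2 h.hR2 _ N₁ N₂ hN
  have hloc := h5 A E s w₁ w₂ B R₁ R₂ h (s.natDegree : K) N₁ N₂ hN1 hN2
  have hnum := h6 A E s N₁ N₂ B (s.natDegree : K) h.hA h.h4 h.hBs hN
  have hr1 := h2 R₁
  have hr2 := h2 R₂
  rw [h1.2.2.2.2.1 R₁ _ _ hz1] at hr1
  rw [h1.2.2.2.2.1 R₂ _ _ hz2] at hr2
  rw [hr1, hr2, h.hcard] at hloc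
  have hsum : Bp R₁ + Bp R₂ = ∑ b ∈ B,
      ((b * (derivative (pol B)).eval b * (1 / w₁.eval b ^ 4 + 1 / w₂.eval b ^ 4)) ^ 2 +
      b * (derivative (pol B)).eval b * (1 / w₁.eval b ^ 4 + 1 / w₂.eval b ^ 4) +
      (1 / w₁.eval b ^ 4 + 1 / w₂.eval b ^ 4)) := by
    have e1 : Bp R₁ + Bp R₂ = Bp R₁ + ((R₂.card.choose 4 : ℕ) : K) +
        (Bp R₂ + ((R₂.card.choose 4 : ℕ) : K)) := by
      linear_combination (-((R₂.card.choose 4 : ℕ) : K)) * two
    rw [e1, hloc]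
    refine Finset.sum_congr rfl fun b hb => ?_
    obtain ⟨hp, hA2, hA3, hn1, hn1'⟩ := hnum b hb
    rw [hA2, hA3, hn1, hn1']
    generalize 1 / w₁.eval b ^ 4 + 1 / w₂.eval b ^ 4 = τ
    generalize (derivative (pol B)).eval b = q at hp ⊢
    have e2 : b * q / q ^ 2 = b / q := by field_simp
    have e3 : (q + b * q ^ 2) / q ^ 2 = (1 + b * q) / q := by field_simp
    rw [e2, e3]
    have e4 : (b / q) ^ 2 * (q ^ 2 * τ) ^ 2 + ((1 + b * q) / q) ^ 2 * (q ^ 2 * τ) +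
        (b / q) * ((1 + b * q) / q) * (q ^ 3 * τ) =
        (b * q * τ) ^ 2 + (1 + b * q) ^ 2 * τ + b * q * (1 + b * q) * τ := by
      field_simp
    rw [e4]
    linear_combination (b * q * τ + b ^ 2 * q ^ 2 * τ) * two
  rw [hsum, Finset.sum_add_distrib, Finset.sum_add_distrib, CharTwo.sum_sq]

end Pool.Agent.FF2
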