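import Mathlib
import Pool.Agent.helper76.FF2.Spec

/-! PAR: partial fractions with the denominator `P ^ 2`. -/

set_option autoImplicit false

namespace Pool.Agent.FF2

open Polynomial

theorem PAR_ne_zero (K : Type*) [Field K] (B : Finset K) : pol B ≠ 0 := by
  unfold pol
  rw [Finset.prod_ne_zero_iff]
  intro x _
  exact X_sub_C_ne_zero x

theorem PAR_natDegree (K : Type*) [Field K] (B : Finset K) : (pol B).natDegree = B.card := by
  unfold pol
  rw [natDegree_finsetProd_X_sub_C_eq_card]

theorem PAR_split (K : Type*) [Field K] [DecidableEq K] (B : Finset K) (b : K) (hb : b ∈ B) :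
    pol B = (X - C b) * pol (B.erase b) := by
  unfold pol
  rw [Finset.mul_prod_erase B (fun x => X - C x) hb]

theorem PAR_eval_ne (K : Type*) [Field K] (B : Finset K) (x : K) (hx : x ∉ B) :
    (pol B).eval x ≠ 0 := by
  unfold pol
  rw [eval_prod, Finset.prod_ne_zero_iff]
  intro c hc
  rw [eval_sub, eval_X, eval_C, sub_ne_zero]
  rintro rfl
  exact hx hc

theorem PAR_eval_eq (K : Type*) [Field K] (B : Finset K) (x : K) (hx : x ∈ B) :
    (pol B).eval x = 0 := by
  unfold pol
  rw [eval_prod]
  exact Finset.prod_eq_zero hx (by simp)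

theorem PAR_deriv (K : Type*) [Field K] [DecidableEq K] (B : Finset K) (b : K) (hb : b ∈ B) :
    (derivative (pol B)).eval b = (pol (B.erase b)).eval b := by
  rw [PAR_split K B b hb, derivative_mul]
  simp

theorem PAR_dvd (K : Type*) [Field K] (B : Finset K) (M : K[X])
    (h0 : ∀ b ∈ B, M.eval b = 0) : pol B ∣ M := by
  unfold pol
  refine Finset.prod_dvd_of_coprime ?_ ?_
  · intro a _ b _ hab
    exact pairwise_coprime_X_sub_C (Function.injective_id) hab
  · intro b hb
    exact dvd_iff_isRoot.2 (h0 b hb)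

theorem PAR_sq_dvd (K : Type*) [Field K] (B : Finset K) (M : K[X])
    (h0 : ∀ b ∈ B, M.eval b = 0) (h1 : ∀ b ∈ B, (derivative M).eval b = 0) :
    pol B ^ 2 ∣ M := by
  obtain ⟨W, hW⟩ := PAR_dvd K B M h0
  have h2 := PAR_dvd K B (derivative M) h1
  rw [hW, derivative_mul] at h2
  have h3 : pol B ∣ derivative (pol B) * W :=
    (dvd_add_left (dvd_mul_right _ _)).1 h2
  have h4 : (pol B).Separable := by
    unfold pol
    rw [separable_prod_X_sub_C_iff']
    intro x _ y _ h
    exact h
  have h5 : IsCoprime (pol B) (derivative (pol B)) := h4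
  obtain ⟨V, hV⟩ := h5.dvd_of_dvd_mul_left h3
  exact ⟨V, by rw [hW, hV]; ring⟩

theorem PAR (K : Type*) [Field K] [CharP K 2] : PAR_stmt K := by
  classical
  intro B N hN x hx
  set a : K → K := fun b => N.eval b / (derivative (pol B)).eval b ^ 2 with ha
  set c : K → K := fun b => (derivative N).eval b / (derivative (pol B)).eval b ^ 2 with hc
  set Q : K → K[X] := fun b => pol (B.erase b) with hQ
  set L : K[X] := ∑ b ∈ B, (C (a b) + C (c b) * (X - C b)) * Q b ^ 2 with hL
  have hp : ∀ b ∈ B, (derivative (pol B)).eval b ≠ 0 := by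
    intro b hb
    rw [PAR_deriv K B b hb]
    exact PAR_eval_ne K _ b (Finset.notMem_erase b B)
  have hdp : (pol B ^ 2).degree = ((2 * B.card : ℕ) : WithBot ℕ) := by
    rw [degree_eq_natDegree (pow_ne_zero 2 (PAR_ne_zero K B)), natDegree_pow, PAR_natDegree]
  have hLdeg : L.degree < (pol B ^ 2).degree := by
    rw [hdp, ← mem_degreeLT]
    refine Submodule.sum_mem _ fun b hb => ?_
    rw [mem_degreeLT]
    have h1 : (C (a b) + C (c b) * (X - C b)).degree ≤ 1 := by
      refine (degree_add_le _ _).trans (max_le (degree_C_le.trans zero_le_one) ?_)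
      refine (degree_mul_le _ _).trans ?_
      calc (C (c b)).degree + (X - C b).degree ≤ 0 + 1 :=
            add_le_add degree_C_le (degree_X_sub_C b).le
        _ = 1 := zero_add 1
    have h2 : (Q b ^ 2).degree = ((2 * (B.card - 1) : ℕ) : WithBot ℕ) := by
      rw [hQ, degree_eq_natDegree (pow_ne_zero 2 (PAR_ne_zero K _)), natDegree_pow, PAR_natDegree,
        Finset.card_erase_of_mem hb]
    have hpos : 0 < B.card := Finset.card_pos.2 ⟨b, hb⟩
    calc ((C (a b) + C (c b) * (X - C b)) * Q b ^ 2).degree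
        ≤ (C (a b) + C (c b) * (X - C b)).degree + (Q b ^ 2).degree := degree_mul_le _ _
      _ ≤ ((1 : ℕ) : WithBot ℕ) + ((2 * (B.card - 1) : ℕ) : WithBot ℕ) := by
          rw [h2]
          exact add_le_add h1 le_rfl
      _ = ((1 + 2 * (B.card - 1) : ℕ) : WithBot ℕ) := by push_cast; rfl
      _ < ((2 * B.card : ℕ) : WithBot ℕ) := by
          rw [Nat.cast_lt]
          omega
  have hL0 : ∀ b ∈ B, L.eval b = N.eval b := by
    intro b hb
    rw [hL, eval_finsetSum, Finset.sum_eq_single_of_mem b hb]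
    · rw [eval_mul, eval_pow, ← PAR_deriv K B b hb]
      simp only [eval_add, eval_mul, eval_sub, eval_X, eval_C, sub_self, mul_zero, add_zero, ha]
      exact div_mul_cancel₀ _ (pow_ne_zero 2 (hp b hb))
    · intro d hd hdb
      have : (Q d).eval b = 0 := PAR_eval_eq K _ b (Finset.mem_erase.2 ⟨hdb.symm, hb⟩)
      rw [eval_mul, eval_pow, this]
      simp
  have hLd : derivative L = ∑ b ∈ B, C (c b) * Q b ^ 2 := by
    rw [hL, derivative_sum]
    refine Finset.sum_congr rfl fun b _ => ?_
    rw [derivative_mul, derivative_pow]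
    have h2 : ((2 : ℕ) : K) = 0 := by exact_mod_cast CharP.cast_eq_zero K 2
    rw [h2]
    simp
  have hL1 : ∀ b ∈ B, (derivative L).eval b = (derivative N).eval b := by
    intro b hb
    rw [hLd, eval_finsetSum, Finset.sum_eq_single_of_mem b hb]
    · rw [eval_mul, eval_pow, eval_C, ← PAR_deriv K B b hb]
      exact div_mul_cancel₀ _ (pow_ne_zero 2 (hp b hb))
    · intro d hd hdb
      have : (Q d).eval b = 0 := PAR_eval_eq K _ b (Finset.mem_erase.2 ⟨hdb.symm, hb⟩)
      rw [eval_mul, eval_pow, this]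
      simp
  have hdvd : pol B ^ 2 ∣ N - L := by
    apply PAR_sq_dvd
    · intro b hb
      rw [eval_sub, hL0 b hb, sub_self]
    · intro b hb
      rw [derivative_sub, eval_sub, hL1 b hb, sub_self]
  have hzero : N - L = 0 := by
    apply eq_zero_of_dvd_of_degree_lt hdvd
    exact (degree_sub_le _ _).trans_lt (max_lt hN hLdeg)
  have hNL : N.eval x = ∑ b ∈ B, (a b + c b * (x - b)) * (Q b).eval x ^ 2 := by
    rw [sub_eq_zero.1 hzero, hL, eval_finsetSum]
    refine Finset.sum_congr rfl fun b _ => ?_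
    simp
  rw [hNL, Finset.sum_div]
  refine Finset.sum_congr rfl fun b hb => ?_
  have hxb : x - b ≠ 0 := by
    rw [sub_ne_zero]
    rintro rfl
    exact hx hb
  have hQx : (Q b).eval x ≠ 0 :=
    PAR_eval_ne K _ x (fun h => hx (Finset.mem_of_mem_erase h))
  have hPx : (pol B).eval x = (x - b) * (Q b).eval x := by
    rw [PAR_split K B b hb]
    simp [hQ]
  have hxb' : x + b = x - b := (CharTwo.sub_eq_add x b).symm
  rw [hPx, hxb']
  change _ = a b / (x - b) ^ 2 + c b / (x - b)
  field_simp

end Pool.Agent.FF2
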