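import Mathlib
import Pool.Agent.helper76.FF2.Spec

/-! REC: reciprocity for the products of `D x + t N x`, modulo `t ^ 3`. -/

set_option autoImplicit false

namespace Pool.Agent.FF2

open Polynomial

/-- coefficients of the product -/
theorem REC_coeffs (K : Type*) [Field K] [CharP K 2] (h1 : E2A_stmt K) (D N : K[X])
    (R : Finset K) (hR : ∀ x ∈ R, D.eval x ≠ 0) :
    (∏ x ∈ R, (C (D.eval x) + C (N.eval x) * X)).coeff 0 = ∏ x ∈ R, D.eval x ∧
    (∏ x ∈ R, (C (D.eval x) + C (N.eval x) * X)).coeff 1 =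
      (∏ x ∈ R, D.eval x) * ∑ x ∈ R, N.eval x / D.eval x ∧
    (∏ x ∈ R, (C (D.eval x) + C (N.eval x) * X)).coeff 2 =
      (∏ x ∈ R, D.eval x) * e2 R (fun x => N.eval x / D.eval x) := by
  induction R using Finset.cons_induction with
  | empty =>
    rw [h1.1]
    simp [coeff_one]
  | cons a R ha ih =>
    obtain ⟨i0, i1, i2⟩ := ih (fun x hx => hR x (Finset.mem_cons_of_mem hx))
    have hda : D.eval a ≠ 0 := hR a (Finset.mem_cons_self a R)
    have hc0 : ∀ F : K[X], ((C (D.eval a) + C (N.eval a) * X) * F).coeff 0 =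
        D.eval a * F.coeff 0 := by
      intro F
      simp [mul_coeff_zero]
    have hcs : ∀ (F : K[X]) (k : ℕ), ((C (D.eval a) + C (N.eval a) * X) * F).coeff (k + 1) =
        D.eval a * F.coeff (k + 1) + N.eval a * F.coeff k := by
      intro F k
      rw [add_mul, coeff_add, coeff_C_mul, mul_assoc, coeff_C_mul, coeff_X_mul]
    rw [h1.2.1 R a ha, Finset.prod_cons, Finset.prod_cons, Finset.sum_cons, hc0, hcs, hcs, i0, i1,
      i2]
    refine ⟨rfl, ?_, ?_⟩
    · field_simp
      ring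
    · field_simp

theorem REC_pol_natDegree (K : Type*) [Field K] (R : Finset K) : (pol R).natDegree = R.card := by
  unfold pol
  rw [natDegree_finsetProd_X_sub_C_eq_card]

theorem REC_prod (K : Type*) [Field K] {S : Type*} [CommRing S] [Nontrivial S] (ι : K →+* S)
    (f : S[X]) (d : ℕ) (hf : f.natDegree ≤ d) (R : Finset K) :
    resultant ((pol R).map ι) f R.card d = ∏ x ∈ R, f.eval (ι x) := by
  have h1 : (pol R).map ι = ∏ x ∈ R, (X - C (ι x)) := by
    unfold pol
    rw [Polynomial.map_prod]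
    simp
  have h2 : (∏ x ∈ R, (X - C (ι x))).natDegree = R.card := by
    rw [natDegree_finsetProd_X_sub_C_eq_card]
  have h3 := resultant_prod_left R (fun x => (X - C (ι x) : S[X])) f d (by simp) hf
  rw [h2] at h3
  rw [h1, h3]
  refine Finset.prod_congr rfl fun x _ => ?_
  rw [natDegree_X_sub_C, resultant_X_sub_C_left _ _ _ hf]

theorem REC_cong (K : Type*) [Field K] (R₁ R₂ : Finset K) (D N : K[X])
    (hN : N.degree < D.degree) (hcard : R₁.card = R₂.card) (hdvd : D ^ 3 ∣ pol R₁ - pol R₂)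
    {S : Type*} [CommRing S] [Nontrivial S] (ι : K →+* S) (τ : S) (hτ : τ ^ 3 = 0) :
    ∏ x ∈ R₁, (D.map ι + C τ * N.map ι).eval (ι x) =
      ∏ x ∈ R₂, (D.map ι + C τ * N.map ι).eval (ι x) := by
  set d := D.natDegree with hd
  set u : S[X] := C τ * N.map ι with hu
  set f : S[X] := D.map ι + u with hf
  have hNd : N.natDegree ≤ d := natDegree_le_natDegree hN.le
  have hu3 : u ^ 3 = 0 := by
    rw [hu, mul_pow, ← C_pow, hτ, C_0, zero_mul]
  have hud : u.natDegree ≤ d :=
    (natDegree_C_mul_le _ _).trans ((natDegree_map_le).trans hNd)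
  have hDd : (D.map ι).natDegree ≤ d := natDegree_map_le
  have hfd : f.natDegree ≤ d := by
    rw [hf]
    exact natDegree_add_le_of_degree_le hDd hud
  obtain ⟨H, hH⟩ := hdvd
  have hG : (pol R₁).map ι = (pol R₂).map ι + (D.map ι) ^ 3 * H.map ι := by
    have := congrArg (Polynomial.map ι) hH
    rw [Polynomial.map_sub, Polynomial.map_mul, Polynomial.map_pow] at this
    rw [← this]
    ring
  have hD3 : (D.map ι) ^ 3 = f * (f ^ 2 - 3 * f * u + 3 * u ^ 2) := by
    have : D.map ι = f - u := by rw [hf]; ring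
    rw [this]
    linear_combination (-1 : S[X]) * hu3
  rw [← REC_prod K ι f d hfd R₁, ← REC_prod K ι f d hfd R₂, hcard]
  rcases eq_or_ne H 0 with hH0 | hH0
  · rw [hG, hH0, Polynomial.map_zero, mul_zero, add_zero]
  have hD0 : D ≠ 0 := by
    intro h
    rw [h, degree_zero] at hN
    exact not_lt_bot hN
  have hdeg : 3 * d + H.natDegree ≤ R₂.card := by
    have h3 : (D ^ 3 * H).natDegree = 3 * d + H.natDegree := by
      rw [natDegree_mul (pow_ne_zero 3 hD0) hH0, natDegree_pow]
    rw [← h3, ← hH]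
    refine (natDegree_sub_le _ _).trans ?_
    rw [REC_pol_natDegree, REC_pol_natDegree, hcard]
    simp
  have hG' : (pol R₁).map ι = (pol R₂).map ι + f * ((f ^ 2 - 3 * f * u + 3 * u ^ 2) * H.map ι) := by
    rw [hG, hD3]
    ring
  rw [hG']
  apply resultant_add_mul_left _ _ _ _ _ _ hfd
  have hq : (f ^ 2 - 3 * f * u + 3 * u ^ 2).natDegree ≤ 2 * d := by
    have a1 : (f ^ 2).natDegree ≤ 2 * d := natDegree_pow_le_of_le 2 hfd
    have a2 : (3 * f * u).natDegree ≤ 2 * d := by
      have b1 : (3 * f * u) = C (3 : S) * (f * u) := by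
        rw [mul_assoc]
        congr 1
      rw [b1]
      refine (natDegree_C_mul_le _ _).trans (natDegree_mul_le.trans ?_)
      omega
    have a3 : (3 * u ^ 2).natDegree ≤ 2 * d := by
      have b1 : (3 * u ^ 2) = C (3 : S) * (u ^ 2) := by
        congr 1
      rw [b1]
      exact (natDegree_C_mul_le _ _).trans (natDegree_pow_le_of_le 2 hud)
    exact natDegree_add_le_of_degree_le (natDegree_sub_le_of_le a1 a2 |>.trans (by simp)) a3
  have hHd : (H.map ι).natDegree ≤ H.natDegree := natDegree_map_le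
  have := (natDegree_mul_le (p := f ^ 2 - 3 * f * u + 3 * u ^ 2) (q := H.map ι))
  omega

theorem REC (K : Type*) [Field K] [CharP K 2] (h1 : E2A_stmt K) : REC_stmt K := by
  intro R₁ R₂ D N hD hN hcard hdvd hR₁ hR₂
  let I : Ideal K[X] := Ideal.span {(X : K[X]) ^ 3}
  have hI : I ≠ ⊤ := by
    intro h
    rw [Ideal.span_singleton_eq_top] at h
    have h2 := natDegree_eq_zero_of_isUnit h
    rw [natDegree_pow, natDegree_X] at h2
    omega
  have : Nontrivial (K[X] ⧸ I) := Ideal.Quotient.nontrivial_iff.2 hI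
  let φ : K[X] →+* K[X] ⧸ I := Ideal.Quotient.mk I
  have hτ : (φ X) ^ 3 = 0 := by
    rw [← map_pow]
    exact Ideal.Quotient.eq_zero_iff_mem.2 (Ideal.mem_span_singleton_self _)
  have key := REC_cong K R₁ R₂ D N hN hcard hdvd (φ.comp C) (φ X) hτ
  have hev : ∀ x : K, (D.map (φ.comp C) + C (φ X) * N.map (φ.comp C)).eval ((φ.comp C) x) =
      φ (C (D.eval x) + C (N.eval x) * X) := by
    intro x
    rw [eval_add, eval_mul, eval_C, eval_map_apply, eval_map_apply, map_add, map_mul]
    simp only [RingHom.comp_apply]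
    ring
  simp only [hev] at key
  rw [← map_prod, ← map_prod] at key
  have h3 : (X : K[X]) ^ 3 ∣ (∏ x ∈ R₁, (C (D.eval x) + C (N.eval x) * X)) -
      ∏ x ∈ R₂, (C (D.eval x) + C (N.eval x) * X) := by
    rw [← Ideal.mem_span_singleton]
    exact Ideal.Quotient.eq.1 key
  rw [X_pow_dvd_iff] at h3
  obtain ⟨a0, a1, a2⟩ := REC_coeffs K h1 D N R₁ hR₁
  obtain ⟨b0, b1, b2⟩ := REC_coeffs K h1 D N R₂ hR₂
  have c0 := h3 0 (by norm_num)
  have c1 := h3 1 (by norm_num)
  have c2 := h3 2 (by norm_num)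
  rw [coeff_sub, a0, b0, sub_eq_zero] at c0
  rw [coeff_sub, a1, b1, sub_eq_zero, c0] at c1
  rw [coeff_sub, a2, b2, sub_eq_zero, c0] at c2
  have hne : ∏ x ∈ R₂, D.eval x ≠ 0 := Finset.prod_ne_zero_iff.2 hR₂
  exact ⟨mul_left_cancel₀ hne c1, mul_left_cancel₀ hne c2⟩

end Pool.Agent.FF2
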